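import Mathlib
import Pool.Agent.H68R2.BP.Props2

/-! Task T_ex (h68b_tasks), helper398. -/

open scoped ComplexOrder InnerProductSpace ComplexConjugate Topology
open Finset Filter

noncomputable section

namespace H68R2.BP

open H759R2.Kad H744R2.KZ

namespace h398aux

variable {H : Type} [NormedAddCommGroup H] [InnerProductSpace ℂ H] [CompleteSpace H]

set_option linter.unusedSectionVars false

lemma Cm_zero (N : Set (H →L[ℂ] H)) : (0 : H →L[ℂ] H) ∈ Cm N := fun a _ => by simp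

lemma Cm_add {N : Set (H →L[ℂ] H)} {b c : H →L[ℂ] H} (hb : b ∈ Cm N) (hc : c ∈ Cm N) :
    b + c ∈ Cm N := fun a ha => by rw [add_mul, mul_add, hb a ha, hc a ha]

lemma Cm_smul {N : Set (H →L[ℂ] H)} {b : H →L[ℂ] H} (r : ℂ) (hb : b ∈ Cm N) :
    r • b ∈ Cm N := fun a ha => by rw [smul_mul_assoc, mul_smul_comm, hb a ha]

lemma Cm_star {M : Set (H →L[ℂ] H)} (hM : ∀ a ∈ M, star a ∈ M) {b : H →L[ℂ] H} (hb : b ∈ Cm M) :
    star b ∈ Cm M := fun a ha => by
  have h := hb (star a) (hM a ha)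
  have h2 := congrArg star h
  rw [star_mul, star_mul, star_star] at h2
  exact h2.symm

/-- real and imaginary parts in a star closed commutant -/
lemma dec {N : Set (H →L[ℂ] H)} (h0 : ∀ b c, b ∈ N → c ∈ N → b + c ∈ N)
    (h1 : ∀ (r : ℂ) b, b ∈ N → r • b ∈ N) (h2 : ∀ b ∈ N, star b ∈ N) {b : H →L[ℂ] H} (hb : b ∈ N) :
    ∃ b1 ∈ N, ∃ b2 ∈ N, star b1 = b1 ∧ star b2 = b2 ∧ b = b1 + Complex.I • b2 := by
  refine ⟨(1 / 2 : ℂ) • (b + star b), h1 _ _ (h0 _ _ hb (h2 b hb)),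
    (-(Complex.I / 2)) • (b + (-1 : ℂ) • star b), h1 _ _ (h0 _ _ hb (h1 _ _ (h2 b hb))), ?_, ?_, ?_⟩
  · rw [star_smul, star_add, star_star, add_comm (star b) b]
    congr 1
    rw [Complex.star_def]
    have c2 : (starRingEnd ℂ) 2 = 2 := Complex.conj_ofNat 2
    simp [c2]
  · rw [star_smul, star_add, star_smul, star_star]
    have e1 : star (-(Complex.I / 2)) = Complex.I / 2 := by
      rw [Complex.star_def]
      have c2 : (starRingEnd ℂ) 2 = 2 := Complex.conj_ofNat 2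
      rw [map_neg, map_div₀, Complex.conj_I, c2]
      ring
    have e2 : star (-1 : ℂ) = -1 := by
      rw [Complex.star_def]; simp
    rw [e1, e2]
    module
  · rw [smul_smul]
    have e : Complex.I * -(Complex.I / 2) = 1 / 2 := by
      rw [mul_neg, ← mul_div_assoc, Complex.I_mul_I]; ring
    rw [e]
    module

end h398aux

open h398aux in
theorem prove_T_ex (h1 : T_rs) (h2 : T_com) : T_ex := by
  intro H _ _ _ M N Ω hcs
  have hKN := h2 H M N Ω hcs
  have hM0 : ∀ b c, b ∈ M → c ∈ M → b + c ∈ M := by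
    rw [hcs.cM]; exact fun b c hb hc => Cm_add hb hc
  have hM1 : ∀ (r : ℂ) b, b ∈ M → r • b ∈ M := by
    rw [hcs.cM]; exact fun r b hb => Cm_smul r hb
  have hMz : (0 : H →L[ℂ] H) ∈ M := by
    rw [hcs.cM]; exact Cm_zero N
  have hN0 : ∀ b c, b ∈ N → c ∈ N → b + c ∈ N := by
    rw [hcs.cN]; exact fun b c hb hc => Cm_add hb hc
  have hN1 : ∀ (r : ℂ) b, b ∈ N → r • b ∈ N := by
    rw [hcs.cN]; exact fun r b hb => Cm_smul r hb
  have hN2 : ∀ b ∈ N, star b ∈ N := by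
    intro b hb
    rw [hcs.cN] at hb ⊢
    exact Cm_star hcs.stM hb
  refine h1 H (KS M Ω) (KS N Ω) isClosed_closure ?_ ?_ ?_ ?_ ?_ hKN
  · exact subset_closure ⟨0, hMz, star_zero _, rfl⟩
  · intro x hx y hy
    refine map_mem_closure₂ continuous_add hx hy ?_
    rintro _ ⟨a, ha, hsa, rfl⟩ _ ⟨b, hb, hsb, rfl⟩
    exact ⟨a + b, hM0 a b ha hb, by rw [star_add, hsa, hsb], rfl⟩
  · intro x hx r
    refine map_mem_closure (continuous_const_smul (r : ℂ)) hx ?_
    rintro _ ⟨a, ha, hsa, rfl⟩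
    refine ⟨(r : ℂ) • a, hM1 _ a ha, ?_, rfl⟩
    rw [star_smul, hsa, Complex.star_def, Complex.conj_ofReal]
  · intro x hx hIx
    have key : ∀ b ∈ N, star b = b → ⟪b Ω, x⟫_ℂ = 0 := by
      intro b hb hsb
      have hbK : b Ω ∈ KS N Ω := subset_closure ⟨b, hb, hsb, rfl⟩
      rw [hKN] at hbK
      have e1 := hbK x hx
      have e2 := hbK (Complex.I • x) hIx
      rw [inner_smul_left, Complex.conj_I] at e2
      have e3 : (⟪x, b Ω⟫_ℂ).re = 0 := by
        have e4 : (-Complex.I * ⟪x, b Ω⟫_ℂ).im = -(⟪x, b Ω⟫_ℂ).re := by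
          simp [Complex.mul_im]
        rw [e4] at e2
        linarith
      have e5 : ⟪x, b Ω⟫_ℂ = 0 := Complex.ext e3 e1
      rw [← inner_conj_symm, e5, map_zero]
    refine hcs.cyc' x fun b hb => ?_
    obtain ⟨b1, hb1, b2, hb2, hs1, hs2, rfl⟩ := dec hN0 hN1 hN2 hb
    rw [add_apply, smul_apply, inner_add_left,
      inner_smul_left, key b1 hb1 hs1, key b2 hb2 hs2, mul_zero, add_zero]
  · intro y hy
    refine hcs.cyc y fun a ha => ?_
    obtain ⟨a1, ha1, a2, ha2, hs1, hs2, rfl⟩ := dec hM0 hM1 hcs.stM ha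
    rw [add_apply, smul_apply, inner_add_left,
      inner_smul_left, hy _ (subset_closure ⟨a1, ha1, hs1, rfl⟩),
      hy _ (subset_closure ⟨a2, ha2, hs2, rfl⟩), mul_zero, add_zero]

end H68R2.BP
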